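import Pool.Agent.Helper16.Sub.A2

set_option autoImplicit false

namespace Pool.Agent.Helper97.Sub

open MeasureTheory Filter Topology
open scoped ComplexConjugate

section
variable {Ω : Type} [MeasurableSpace Ω] {μ : Measure Ω} {T : Ω → Ω} {f : Ω → ℂ}

/-- Fejer density -/
noncomputable def A1_D (μ : Measure Ω) (T : Ω → Ω) (f : Ω → ℂ) (N : ℕ)
    (s : AddCircle (1 : ℝ)) : ℝ :=
  (∫ x, ‖∑ j ∈ Finset.range N, f (T^[j] x) * (conj (fourier (1 : ℤ) s)) ^ j‖ ^ 2 ∂μ) / N

lemma A1_D_nonneg (N : ℕ) (s : AddCircle (1 : ℝ)) : 0 ≤ A1_D μ T f N s :=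
  div_nonneg (integral_nonneg fun _ => by positivity) (Nat.cast_nonneg N)

lemma A1_D_eq (hT : MeasurePreserving T μ μ) (hf : MemLp f 2 μ) (N : ℕ)
    (s : AddCircle (1 : ℝ)) :
    ((A1_D μ T f N s : ℝ) : ℂ) = (∑ j ∈ Finset.range N, ∑ l ∈ Finset.range N,
        A_C μ T f j l * fourier ((l : ℤ) - j) s) / N := by
  unfold A1_D
  rw [Complex.ofReal_div, A_exp hT hf N s]
  simp

lemma A1_D_cont (hT : MeasurePreserving T μ μ) (hf : MemLp f 2 μ) (N : ℕ) :
    Continuous (A1_D μ T f N) := by
  have h1 : A1_D μ T f N = fun s => ((∑ j ∈ Finset.range N, ∑ l ∈ Finset.range N,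
        A_C μ T f j l * fourier ((l : ℤ) - j) s) / (N : ℂ)).re := by
    funext s
    rw [← A1_D_eq hT hf N s, Complex.ofReal_re]
  rw [h1]
  refine Complex.continuous_re.comp (Continuous.div_const ?_ _)
  refine continuous_finsetSum _ fun j _ => continuous_finsetSum _ fun l _ => ?_
  exact continuous_const.mul (fourier ((l : ℤ) - j)).continuous

/-- Fejer measure -/
noncomputable def A1_nu (μ : Measure Ω) (T : Ω → Ω) (f : Ω → ℂ) (N : ℕ) :
    Measure (AddCircle (1 : ℝ)) :=
  (AddCircle.haarAddCircle).withDensity (fun s => ENNReal.ofReal (A1_D μ T f N s))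

lemma A1_nu_fin (hT : MeasurePreserving T μ μ) (hf : MemLp f 2 μ) (N : ℕ) :
    IsFiniteMeasure (A1_nu μ T f N) := by
  refine isFiniteMeasure_withDensity_ofReal ?_
  exact ((BoundedContinuousFunction.mkOfCompact
    (⟨A1_D μ T f N, A1_D_cont hT hf N⟩ : C(AddCircle (1 : ℝ), ℝ))).integrable
    AddCircle.haarAddCircle).2

lemma A1_fourier_int (m : ℤ) :
    ∫ s : AddCircle (1 : ℝ), fourier m s ∂AddCircle.haarAddCircle = if m = 0 then 1 else 0 := by
  split_ifs with h
  · subst h
    simp only [fourier_zero]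
    simp
  · exact integral_eq_zero_of_add_right_eq_neg (μ := AddCircle.haarAddCircle)
      (fourier_add_half_inv_index h (Fact.out : (0 : ℝ) < 1))

lemma A1_nu_coeff (hT : MeasurePreserving T μ μ) (hf : MemLp f 2 μ) (N n : ℕ) :
    ∫ t, fourier (n : ℤ) t ∂(A1_nu μ T f N) =
      (((N - n : ℕ) : ℂ) / N) * A_C μ T f n 0 := by
  unfold A1_nu
  rw [integral_withDensity_eq_integral_toReal_smul]
  · have h1 : ∀ s : AddCircle (1 : ℝ), (ENNReal.ofReal (A1_D μ T f N s)).toReal •
        fourier (n : ℤ) s = ∑ j ∈ Finset.range N, ∑ l ∈ Finset.range N,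
          (A_C μ T f j l / N) * fourier ((l : ℤ) - j + n) s := by
      intro s
      rw [ENNReal.toReal_ofReal (A1_D_nonneg N s), Complex.real_smul, A1_D_eq hT hf N s,
        div_eq_mul_inv, Finset.sum_mul, Finset.sum_mul]
      refine Finset.sum_congr rfl fun j _ => ?_
      rw [Finset.sum_mul, Finset.sum_mul]
      refine Finset.sum_congr rfl fun l _ => ?_
      rw [fourier_add]
      ring
    simp only [h1]
    have hI : ∀ (c : ℂ) (m : ℤ), Integrable (fun t : AddCircle (1 : ℝ) => c * fourier m t)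
        AddCircle.haarAddCircle := by
      intro c m
      refine Integrable.const_mul ?_ c
      refine Integrable.of_bound (C := 1) ?_ ?_
      · exact (fourier m).continuous.aestronglyMeasurable
      · refine Filter.Eventually.of_forall fun t => ?_
        exact ((fourier m).norm_coe_le_norm t).trans (fourier_norm m).le
    rw [integral_finsetSum _ fun j _ => integrable_finsetSum _ fun l _ => hI _ _]
    have h2 : ∀ j ∈ Finset.range N, (∫ t : AddCircle (1 : ℝ), ∑ l ∈ Finset.range N,
          (A_C μ T f j l / N) * fourier ((l : ℤ) - j + n) t ∂AddCircle.haarAddCircle) =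
          if n ≤ j then A_C μ T f n 0 / N else 0 := by
      intro j hj
      rw [integral_finsetSum _ fun l _ => hI _ _]
      simp only [integral_const_mul, A1_fourier_int]
      split_ifs with hnj
      · rw [Finset.sum_eq_single (j - n)]
        · have h3 : (((j - n : ℕ) : ℤ) - j + n) = 0 := by omega
          rw [if_pos h3, mul_one]
          have h4 := A_C_shift hT hf n 0 (j - n)
          rw [zero_add, Nat.add_sub_cancel' hnj] at h4
          rw [h4]
        · intro l _ hl
          rw [if_neg (by omega), mul_zero]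
        · intro h
          exfalso
          apply h
          rw [Finset.mem_range] at hj ⊢
          omega
      · refine Finset.sum_eq_zero fun l _ => ?_
        rw [if_neg (by omega), mul_zero]
    rw [Finset.sum_congr rfl h2, Finset.sum_ite, Finset.sum_const_zero, add_zero,
      Finset.sum_const]
    have h5 : (Finset.filter (fun j => n ≤ j) (Finset.range N)).card = N - n := by
      have h6 : Finset.filter (fun j => n ≤ j) (Finset.range N) = Finset.Ico n N := by
        ext j
        simp only [Finset.mem_filter, Finset.mem_range, Finset.mem_Ico]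
        exact and_comm
      rw [h6, Nat.card_Ico]
    rw [h5, nsmul_eq_mul]
    ring
  · exact (ENNReal.measurable_ofReal.comp (A1_D_cont hT hf N).measurable)
  · exact Filter.Eventually.of_forall fun s => ENNReal.ofReal_lt_top

end

theorem A1 : A1_stmt := by
  intro Ω _ μ _ T hT f hf
  set F : ℕ → FiniteMeasure (AddCircle (1 : ℝ)) := fun N =>
    ⟨A1_nu μ T f N, A1_nu_fin hT hf N⟩ with hF
  -- mass bound
  set K : NNReal := ‖A_C μ T f 0 0‖₊ with hK
  have hmass : ∀ N, (F N).mass ≤ K := by
    intro N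
    have h1 := A1_nu_coeff hT hf N 0
    have hfinN := A1_nu_fin hT hf N
    simp only [Nat.cast_zero, fourier_zero, Nat.sub_zero] at h1
    rw [integral_const] at h1
    have h2 : ‖(A1_nu μ T f N).real Set.univ • (1 : ℂ)‖ ≤ ‖A_C μ T f 0 0‖ := by
      rw [h1, norm_mul]
      refine mul_le_of_le_one_left (norm_nonneg _) ?_
      rcases Nat.eq_zero_or_pos N with h0 | h0
      · subst h0; simp
      · rw [div_self (Nat.cast_ne_zero.mpr h0.ne')]; simp
    have h3 : ‖(A1_nu μ T f N).real Set.univ • (1 : ℂ)‖ = ((F N).mass : ℝ) := by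
      rw [norm_smul, norm_one, mul_one, Real.norm_of_nonneg measureReal_nonneg]
      rfl
    rw [h3] at h2
    exact_mod_cast h2
  have hcomp := isCompact_setOfPred_finiteMeasure_le_of_compactSpace (AddCircle (1 : ℝ)) K
  obtain ⟨ν, hν1, hν2⟩ := hcomp.ultrafilter_le_nhds ((Filter.hyperfilter ℕ).map F) (by
    rw [le_principal_iff]
    exact Filter.Eventually.of_forall (f := (Filter.hyperfilter ℕ : Filter ℕ)) hmass)
  have hν3 : Tendsto F (Filter.hyperfilter ℕ) (𝓝 ν) := hν2
  rw [FiniteMeasure.tendsto_iff_forall_integral_rclike_tendsto ℂ] at hν3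
  refine ⟨ν, inferInstance, fun n => ?_⟩
  have h4 := hν3 (BoundedContinuousFunction.mkOfCompact (fourier (n : ℤ)))
  simp only [BoundedContinuousFunction.mkOfCompact_apply] at h4
  have h5 : Tendsto (fun N : ℕ => ∫ t, fourier (n : ℤ) t ∂(A1_nu μ T f N)) atTop
      (𝓝 (A_C μ T f n 0)) := by
    simp only [A1_nu_coeff hT hf]
    have h6 : Tendsto (fun N : ℕ => (((N - n : ℕ) : ℂ) / N)) atTop (𝓝 1) := by
      have h7 : Tendsto (fun N : ℕ => (1 : ℂ) - (n : ℂ) * (1 / (N : ℂ))) atTop (𝓝 (1 - n * 0)) := by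
        refine Tendsto.const_sub 1 (Tendsto.const_mul _ ?_)
        have h8 := tendsto_one_div_atTop_nhds_zero_nat (𝕜 := ℝ)
        have h9 := (Complex.continuous_ofReal.tendsto (0 : ℝ)).comp h8
        simpa [Function.comp_def] using h9
      rw [mul_zero, sub_zero] at h7
      refine h7.congr' ?_
      filter_upwards [eventually_ge_atTop n, eventually_gt_atTop 0] with N hN hN0
      rw [Nat.cast_sub hN]
      have : (N : ℂ) ≠ 0 := by exact_mod_cast hN0.ne'
      field_simp
    simpa using h6.mul_const (A_C μ T f n 0)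
  exact tendsto_nhds_unique h4 (h5.mono_left (Nat.hyperfilter_le_atTop))

end Pool.Agent.Helper97.Sub
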