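import Pool.Agent.Helper97.Sub.Defs

set_option autoImplicit false

namespace Pool.Agent.Helper97.Sub

open MeasureTheory
open scoped ComplexConjugate

/-- correlations -/
noncomputable def A_C {Ω : Type} [MeasurableSpace Ω] (μ : Measure Ω) (T : Ω → Ω) (f : Ω → ℂ)
    (j l : ℕ) : ℂ :=
  ∫ x, f (T^[j] x) * conj (f (T^[l] x)) ∂μ

section
variable {Ω : Type} [MeasurableSpace Ω] {μ : Measure Ω} {T : Ω → Ω}
  {f : Ω → ℂ}

lemma A_memLp (hT : MeasurePreserving T μ μ) (hf : MemLp f 2 μ) (j : ℕ) :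
    MemLp (fun x => f (T^[j] x)) 2 μ :=
  hf.comp_measurePreserving (hT.iterate j)

lemma A_int (hT : MeasurePreserving T μ μ) (hf : MemLp f 2 μ) (j l : ℕ) :
    Integrable (fun x => f (T^[j] x) * conj (f (T^[l] x))) μ := by
  have h1 := A_memLp hT hf j
  have h2 := (A_memLp hT hf l).star
  exact h1.integrable_mul h2

lemma A_C_shift (hT : MeasurePreserving T μ μ) (hf : MemLp f 2 μ) (j l k : ℕ) :
    A_C μ T f (j + k) (l + k) = A_C μ T f j l := by
  unfold A_C
  have h1 := (A_int hT hf j l).aestronglyMeasurable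
  have h2 : μ.map (T^[k]) = μ := (hT.iterate k).map_eq
  have h3 : ∫ y, f (T^[j] y) * conj (f (T^[l] y)) ∂(μ.map (T^[k])) =
      ∫ x, f (T^[j] (T^[k] x)) * conj (f (T^[l] (T^[k] x))) ∂μ :=
    integral_map (hT.iterate k).measurable.aemeasurable (by rw [h2]; exact h1)
  rw [h2] at h3
  rw [h3]
  simp only [Function.iterate_add_apply]

lemma A_C_conj (j l : ℕ) : A_C μ T f l j = conj (A_C μ T f j l) := by
  unfold A_C
  rw [← integral_conj]
  refine integral_congr_ae (Filter.Eventually.of_forall fun x => ?_)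
  simp only [map_mul, Complex.conj_conj]
  ring

lemma A_fourier_pow (s : AddCircle (1 : ℝ)) (j : ℕ) :
    (fourier (1 : ℤ) s) ^ j = fourier (j : ℤ) s := by
  induction j with
  | zero => simp
  | succ j ih => rw [pow_succ, ih, ← fourier_add]; push_cast; rfl

lemma A_term (s : AddCircle (1 : ℝ)) (a b : ℂ) (j l : ℕ) :
    a * (conj (fourier (1 : ℤ) s)) ^ j * conj (b * (conj (fourier (1 : ℤ) s)) ^ l) =
      a * conj b * fourier ((l : ℤ) - j) s := by
  rw [map_mul, map_pow, Complex.conj_conj, ← map_pow, A_fourier_pow, A_fourier_pow,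
    ← fourier_neg, sub_eq_neg_add, fourier_add]
  ring

lemma A_sq_expand (N : ℕ) (a : ℕ → ℂ) :
    ((‖∑ j ∈ Finset.range N, a j‖ ^ 2 : ℝ) : ℂ) =
      ∑ j ∈ Finset.range N, ∑ l ∈ Finset.range N, a j * conj (a l) := by
  push_cast
  rw [← Complex.mul_conj', map_sum, Finset.sum_mul_sum]

lemma A_exp (hT : MeasurePreserving T μ μ) (hf : MemLp f 2 μ) (N : ℕ)
    (s : AddCircle (1 : ℝ)) :
    ((∫ x, ‖∑ j ∈ Finset.range N, f (T^[j] x) * (conj (fourier (1 : ℤ) s)) ^ j‖ ^ 2 ∂μ : ℝ) : ℂ) =
      ∑ j ∈ Finset.range N, ∑ l ∈ Finset.range N,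
        A_C μ T f j l * fourier ((l : ℤ) - j) s := by
  rw [← integral_complex_ofReal]
  have h1 : ∀ x, ((‖∑ j ∈ Finset.range N, f (T^[j] x) * (conj (fourier (1 : ℤ) s)) ^ j‖ ^ 2 : ℝ) : ℂ)
      = ∑ j ∈ Finset.range N, ∑ l ∈ Finset.range N,
        f (T^[j] x) * conj (f (T^[l] x)) * fourier ((l : ℤ) - j) s := by
    intro x
    rw [A_sq_expand]
    refine Finset.sum_congr rfl fun j _ => Finset.sum_congr rfl fun l _ => ?_
    exact A_term s _ _ j l
  simp only [h1]
  rw [integral_finsetSum]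
  · refine Finset.sum_congr rfl fun j _ => ?_
    rw [integral_finsetSum]
    · refine Finset.sum_congr rfl fun l _ => ?_
      rw [integral_mul_const]
      rfl
    · intro l _
      exact (A_int hT hf j l).mul_const _
  · intro j _
    refine integrable_finsetSum _ fun l _ => ?_
    exact (A_int hT hf j l).mul_const _

end

theorem A2 : A2_stmt := by
  intro Ω _ μ _ T hT f hf ν hν N s
  obtain ⟨hfin, hn⟩ := hν
  have hC : ∀ n : ℕ, ∫ t, fourier (n : ℤ) t ∂ν = A_C μ T f n 0 := fun n => hn n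
  have hZ : ∀ j l : ℕ, ∫ t, fourier ((j : ℤ) - l) t ∂ν = A_C μ T f j l := by
    intro j l
    rcases le_total l j with h | h
    · obtain ⟨k, rfl⟩ := Nat.exists_eq_add_of_le' h
      have h1 : (((k + l : ℕ) : ℤ) - l) = (k : ℤ) := by push_cast; ring
      rw [h1, hC]
      have h2 := A_C_shift hT hf k 0 l
      rw [zero_add] at h2
      exact h2.symm
    · obtain ⟨k, rfl⟩ := Nat.exists_eq_add_of_le' h
      have h1 : ((j : ℤ) - ((k + j : ℕ) : ℤ)) = -(k : ℤ) := by push_cast; ring
      rw [h1]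
      simp only [fourier_neg]
      rw [integral_conj, hC]
      have h2 := A_C_shift hT hf k 0 j
      rw [zero_add] at h2
      rw [← h2]
      exact (A_C_conj _ _).symm
  have hI : ∀ n : ℤ, Integrable (fun t : AddCircle (1 : ℝ) => fourier n t) ν := by
    intro n
    refine Integrable.of_bound (C := 1) ?_ ?_
    · exact (fourier n).continuous.aestronglyMeasurable
    · refine Filter.Eventually.of_forall fun t => ?_
      exact ((fourier n).norm_coe_le_norm t).trans (fourier_norm n).le
  have hcast : ((KN ν N s : ℝ) : ℂ) =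
      ((∫ x, ‖∑ j ∈ Finset.range N, f (T^[j] x) * (conj (fourier 1 s)) ^ j‖ ^ 2 ∂μ : ℝ) : ℂ) := by
    rw [A_exp hT hf N s]
    unfold KN
    rw [← integral_complex_ofReal]
    have h1 : ∀ t, ((‖∑ j ∈ Finset.range N, fourier (j : ℤ) (t - s)‖ ^ 2 : ℝ) : ℂ) =
        ∑ j ∈ Finset.range N, ∑ l ∈ Finset.range N,
          fourier ((j : ℤ) - l) t * fourier ((l : ℤ) - j) s := by
      intro t
      rw [A_sq_expand]
      refine Finset.sum_congr rfl fun j _ => Finset.sum_congr rfl fun l _ => ?_
      rw [← fourier_neg, ← fourier_add]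
      have h3 : ∀ m : ℤ, fourier m (t - s) = fourier m t * fourier (-m) s := by
        intro m
        rw [sub_eq_add_neg, fourier_apply, smul_add, smul_neg, AddCircle.toCircle_add]
        rw [Circle.coe_mul]
        rw [fourier_neg' (n := m) (x := s), fourier_neg, fourier_apply]
        rfl
      rw [h3]
      have h4 : -((j : ℤ) + -(l : ℤ)) = (l : ℤ) - j := by ring
      have h5 : ((j : ℤ) + -(l : ℤ)) = (j : ℤ) - l := by ring
      rw [h4, h5]
    simp only [h1]
    rw [integral_finsetSum]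
    · refine Finset.sum_congr rfl fun j _ => ?_
      rw [integral_finsetSum]
      · refine Finset.sum_congr rfl fun l _ => ?_
        rw [integral_mul_const, hZ]
      · intro l _
        exact (hI _).mul_const _
    · intro j _
      exact integrable_finsetSum _ fun l _ => (hI _).mul_const _
  exact_mod_cast hcast

end Pool.Agent.Helper97.Sub
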