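import Pool.Agent.Helper97.Sub.Defs

set_option autoImplicit false

namespace Pool.Agent.Helper97.Sub

lemma E2_poly {d : ℕ} (A : Matrix (Fin d) (Fin d) ℂ) (u : Fin d → ℂ)
    (h : ∀ n : ℕ, ∑ a, ((A ^ n).mulVec u) a = ∑ a, u a) (Q : Polynomial ℂ) :
    ∑ a, ((Polynomial.aeval A Q).mulVec u) a = Q.eval 1 * ∑ a, u a := by
  induction Q using Polynomial.induction_on' with
  | add p q hp hq =>
    rw [map_add, Matrix.add_mulVec, Polynomial.eval_add, add_mul, ← hp, ← hq]
    simp only [Pi.add_apply, Finset.sum_add_distrib]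
  | monomial n c =>
    rw [Polynomial.aeval_monomial, Polynomial.eval_monomial, one_pow, mul_one, ← h n]
    rw [← Algebra.smul_def, Matrix.smul_mulVec, Finset.mul_sum]
    simp only [Pi.smul_apply, smul_eq_mul]

theorem E2 : E2_stmt := by
  intro d M hM
  refine ⟨fun a => by simp, ?_⟩
  intro p hp u hu
  set A : Matrix (Fin d) (Fin d) ℂ := M.map (Int.cast : ℤ → ℂ) with hA
  have hmap : ∀ k : ℕ, A ^ k = (M ^ k).map (Int.cast : ℤ → ℂ) := by
    intro k
    have := Matrix.map_pow M (Int.castRingHom ℂ) k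
    simpa [hA] using this.symm
  have h1 : (1 : ℂ) ∉ spectrum ℂ (A ^ p) := by
    intro hmem
    rw [spectrum.map_pow_of_pos A hp] at hmem
    obtain ⟨z, hz, hz1⟩ := hmem
    exact hM z (Matrix.mem_spectrum_iff_isRoot_charpoly.mp hz) p hp hz1
  have h2 : ¬ (A ^ p).charpoly.IsRoot 1 := fun h =>
    h1 (Matrix.mem_spectrum_iff_isRoot_charpoly.mpr h)
  have h3 : ∀ n : ℕ, ∑ a, (((A ^ p) ^ n).mulVec (fun a => ((u a : ℤ) : ℂ))) a =
      ∑ a, ((u a : ℤ) : ℂ) := by
    intro n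
    rw [← pow_mul, hmap]
    have h4 : ∀ a, (((M ^ (p * n)).map (Int.cast : ℤ → ℂ)).mulVec
        (fun a => ((u a : ℤ) : ℂ))) a = (((M ^ (p * n)).mulVec u a : ℤ) : ℂ) := by
      intro a
      simp only [Matrix.mulVec, dotProduct, Matrix.map_apply]
      push_cast
      rfl
    simp only [h4]
    exact_mod_cast hu n
  have h5 := E2_poly (A ^ p) (fun a => ((u a : ℤ) : ℂ)) h3 (A ^ p).charpoly
  rw [Matrix.aeval_self_charpoly] at h5
  have h6 : (∑ a, ((u a : ℤ) : ℂ)) = 0 := by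
    have h7 : (A ^ p).charpoly.eval 1 * ∑ a, ((u a : ℤ) : ℂ) = 0 := by
      rw [← h5]
      simp
    rcases mul_eq_zero.mp h7 with h8 | h8
    · exact absurd h8 h2
    · exact h8
  have h7 : (∑ a, u a : ℤ) = 0 := by exact_mod_cast h6
  rw [h7]
  simp

end Pool.Agent.Helper97.Sub
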