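import Pool.Agent.Helper97.Sub.Defs

set_option autoImplicit false

namespace Pool.Agent.Helper97.Sub

/-- sum of all entries of `M^k` -/
def H_S {d : ℕ} (M : Matrix (Fin d) (Fin d) ℤ) (k : ℕ) : ℤ := ∑ a, ell M k a

lemma H_ell_add {d : ℕ} (M : Matrix (Fin d) (Fin d) ℤ) (j k : ℕ) (a : Fin d) :
    ell M (j + k) a = ∑ c, ell M j c * (M ^ k) c a := by
  unfold ell
  rw [pow_add]
  simp only [Matrix.mul_apply, Finset.sum_mul]
  rw [Finset.sum_comm]

lemma H_pow_nonneg {d : ℕ} (M : Matrix (Fin d) (Fin d) ℤ) (h0 : ∀ i j, 0 ≤ M i j) (k : ℕ) :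
    ∀ i j, 0 ≤ (M ^ k) i j := by
  induction k with
  | zero =>
    intro i j
    rw [pow_zero]
    by_cases h : i = j
    · subst h; simp
    · simp [h]
  | succ k ih =>
    intro i j
    rw [pow_succ, Matrix.mul_apply]
    exact Finset.sum_nonneg fun c _ => mul_nonneg (ih i c) (h0 c j)

lemma H_ell_nonneg {d : ℕ} (M : Matrix (Fin d) (Fin d) ℤ) (h0 : ∀ i j, 0 ≤ M i j) (k : ℕ)
    (a : Fin d) : 0 ≤ ell M k a :=
  Finset.sum_nonneg fun b _ => H_pow_nonneg M h0 k b a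

lemma H_ell_pos {d : ℕ} (M : Matrix (Fin d) (Fin d) ℤ) (h0 : ∀ i j, 0 ≤ M i j)
    (h1 : ∀ j, ∃ i, 0 < M i j) (k : ℕ) : ∀ a : Fin d, 1 ≤ ell M k a := by
  induction k with
  | zero =>
    intro a
    unfold ell
    rw [pow_zero]
    simp [Matrix.one_apply]
  | succ k ih =>
    intro a
    rw [H_ell_add M k 1 a]
    obtain ⟨i, hi⟩ := h1 a
    have h2 : ell M k i * (M ^ 1) i a ≤ ∑ c, ell M k c * (M ^ 1) c a :=
      Finset.single_le_sum (f := fun c => ell M k c * (M ^ 1) c a)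
        (fun c _ => mul_nonneg (H_ell_nonneg M h0 k c) (H_pow_nonneg M h0 1 c a))
        (Finset.mem_univ i)
    have h3 : 1 ≤ ell M k i * (M ^ 1) i a := by
      rw [pow_one]
      have := ih i
      nlinarith
    linarith

lemma H_S_eq {d : ℕ} (M : Matrix (Fin d) (Fin d) ℤ) (j k : ℕ) :
    H_S M (j + k) = ∑ c, ell M j c * ∑ a, (M ^ k) c a := by
  unfold H_S
  simp only [H_ell_add M j k, Finset.mul_sum]
  rw [Finset.sum_comm]

lemma H_S_rows {d : ℕ} (M : Matrix (Fin d) (Fin d) ℤ) (k : ℕ) :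
    H_S M k = ∑ c, ∑ a, (M ^ k) c a := by
  unfold H_S ell
  rw [Finset.sum_comm]

lemma H_S_nonneg {d : ℕ} (M : Matrix (Fin d) (Fin d) ℤ) (h0 : ∀ i j, 0 ≤ M i j) (k : ℕ) :
    0 ≤ H_S M k := Finset.sum_nonneg fun a _ => H_ell_nonneg M h0 k a

lemma H_S_add_le {d : ℕ} (M : Matrix (Fin d) (Fin d) ℤ) (h0 : ∀ i j, 0 ≤ M i j) (j k : ℕ) :
    H_S M (j + k) ≤ H_S M j * H_S M k := by
  rw [H_S_eq, H_S, Finset.sum_mul]
  refine Finset.sum_le_sum fun c _ => mul_le_mul_of_nonneg_left ?_ (H_ell_nonneg M h0 j c)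
  rw [H_S_rows]
  exact Finset.single_le_sum (f := fun c => ∑ a, (M ^ k) c a)
    (fun c _ => Finset.sum_nonneg fun a _ => H_pow_nonneg M h0 k c a) (Finset.mem_univ c)

lemma H_ell_ge {d : ℕ} (M : Matrix (Fin d) (Fin d) ℤ) (h0 : ∀ i j, 0 ≤ M i j) (k₀ : ℕ)
    (hk : ∀ i j, 0 < (M ^ k₀) i j) (j : ℕ) (a : Fin d) :
    H_S M j ≤ ell M (j + k₀) a := by
  rw [H_ell_add, H_S]
  refine Finset.sum_le_sum fun c _ => ?_
  have h1 := hk c a
  have h2 := H_ell_nonneg M h0 j c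
  nlinarith

lemma H_S_add_ge {d : ℕ} (M : Matrix (Fin d) (Fin d) ℤ) (h0 : ∀ i j, 0 ≤ M i j) (k₀ : ℕ)
    (hk : ∀ i j, 0 < (M ^ k₀) i j) (j k : ℕ) :
    H_S M j * H_S M k ≤ H_S M (j + k₀ + k) := by
  rw [H_S_eq M (j + k₀) k, H_S_rows M k, Finset.mul_sum]
  refine Finset.sum_le_sum fun c _ => mul_le_mul_of_nonneg_right (H_ell_ge M h0 k₀ hk j c) ?_
  exact Finset.sum_nonneg fun a _ => H_pow_nonneg M h0 k c a

lemma H_S_ge {d : ℕ} (M : Matrix (Fin d) (Fin d) ℤ) (h0 : ∀ i j, 0 ≤ M i j) (k₀ : ℕ)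
    (hk : ∀ i j, 0 < (M ^ k₀) i j) (j k : ℕ) :
    H_S M j * H_S M k ≤ H_S M k₀ * H_S M (j + k) := by
  have h1 := H_S_add_ge M h0 k₀ hk j k
  have h2 := H_S_add_le M h0 k₀ (j + k)
  have h3 : j + k₀ + k = k₀ + (j + k) := by ring
  rw [h3] at h1
  linarith

/-- growth of the multiples -/
lemma H_S_mul {d : ℕ} (M : Matrix (Fin d) (Fin d) ℤ) (h0 : ∀ i j, 0 ≤ M i j) (k₀ : ℕ)
    (hk : ∀ i j, 0 < (M ^ k₀) i j) (k : ℕ) (n : ℕ) :
    H_S M k ^ (n + 1) ≤ H_S M k₀ ^ n * H_S M ((n + 1) * k) := by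
  induction n with
  | zero => simp
  | succ n ih =>
    have h1 := H_S_ge M h0 k₀ hk ((n + 1) * k) k
    have h2 : (n + 1) * k + k = (n + 1 + 1) * k := by ring
    rw [h2] at h1
    calc H_S M k ^ (n + 1 + 1) = H_S M k ^ (n + 1) * H_S M k := by ring
      _ ≤ (H_S M k₀ ^ n * H_S M ((n + 1) * k)) * H_S M k :=
          mul_le_mul_of_nonneg_right ih (H_S_nonneg M h0 k)
      _ = H_S M k₀ ^ n * (H_S M ((n + 1) * k) * H_S M k) := by ring
      _ ≤ H_S M k₀ ^ n * (H_S M k₀ * H_S M ((n + 1 + 1) * k)) :=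
          mul_le_mul_of_nonneg_left h1 (pow_nonneg (H_S_nonneg M h0 k₀) n)
      _ = H_S M k₀ ^ (n + 1) * H_S M ((n + 1 + 1) * k) := by ring

section norm

attribute [local instance] Matrix.linftyOpNormedRing Matrix.linftyOpNormedAlgebra
  Matrix.linftyOpNormedAddCommGroup

lemma H_S_le_norm {d : ℕ} (M : Matrix (Fin d) (Fin d) ℤ) (h0 : ∀ i j, 0 ≤ M i j) (k : ℕ) :
    ((H_S M k : ℤ) : ℝ) ≤ d * ‖(M.map (Int.cast : ℤ → ℂ)) ^ k‖ := by
  have hmap : (M.map (Int.cast : ℤ → ℂ)) ^ k = (M ^ k).map (Int.cast : ℤ → ℂ) := by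
    have := Matrix.map_pow M (Int.castRingHom ℂ) k
    simpa using this.symm
  rw [hmap, H_S_rows]
  push_cast
  have h1 : ∀ c : Fin d, ∑ a, (((M ^ k) c a : ℤ) : ℝ) ≤ ‖(M ^ k).map (Int.cast : ℤ → ℂ)‖ := by
    intro c
    have h2 : ∑ a, (((M ^ k) c a : ℤ) : ℝ) = ∑ a, ‖((M ^ k).map (Int.cast : ℤ → ℂ)) c a‖ := by
      refine Finset.sum_congr rfl fun a _ => ?_
      simp only [Matrix.map_apply]
      rw [Complex.norm_intCast, abs_of_nonneg]
      exact_mod_cast H_pow_nonneg M h0 k c a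
    rw [h2, Matrix.linfty_opNorm_def]
    have h3 : (∑ a, ‖((M ^ k).map (Int.cast : ℤ → ℂ)) c a‖₊) ≤
        Finset.univ.sup fun i => ∑ a, ‖((M ^ k).map (Int.cast : ℤ → ℂ)) i a‖₊ :=
      Finset.le_sup (f := fun i => ∑ a, ‖((M ^ k).map (Int.cast : ℤ → ℂ)) i a‖₊)
        (Finset.mem_univ c)
    have h4 := NNReal.coe_le_coe.mpr h3
    push_cast at h4
    exact_mod_cast h4
  calc ∑ c, ∑ a, (((M ^ k) c a : ℤ) : ℝ) ≤ ∑ _c : Fin d, ‖(M ^ k).map (Int.cast : ℤ → ℂ)‖ :=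
        Finset.sum_le_sum fun c _ => h1 c
    _ = d * ‖(M ^ k).map (Int.cast : ℤ → ℂ)‖ := by simp

open Filter Topology in
/-- Gelfand: if all eigenvalues have modulus `≤ θ < r` then `‖A^n‖ ≤ r^n` eventually. -/
lemma H_gelfand {d : ℕ} (A : Matrix (Fin d) (Fin d) ℂ) (θ r : ℝ) (hr : θ < r) (hθ : 0 ≤ θ)
    (h : ∀ z : ℂ, A.charpoly.IsRoot z → ‖z‖ ≤ θ) :
    ∀ᶠ n : ℕ in atTop, ‖A ^ n‖ ≤ r ^ n := by
  have hc : CompleteSpace (Matrix (Fin d) (Fin d) ℂ) := by infer_instance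
  have h1 := spectrum.pow_nnnorm_pow_one_div_tendsto_nhds_spectralRadius A
  have h2 : spectralRadius ℂ A ≤ ENNReal.ofReal θ := by
    unfold spectralRadius
    refine iSup₂_le fun z hz => ?_
    have hz2 : A.charpoly.IsRoot z := Matrix.mem_spectrum_iff_isRoot_charpoly.mp hz
    have h3 := h z hz2
    rw [show (‖z‖₊ : ENNReal) = ENNReal.ofReal ‖z‖ from
      (ENNReal.ofReal_eq_coe_nnreal (norm_nonneg z)).symm]
    exact ENNReal.ofReal_le_ofReal h3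
  have h4 : spectralRadius ℂ A < ENNReal.ofReal r :=
    lt_of_le_of_lt h2 ((ENNReal.ofReal_lt_ofReal_iff (by linarith)).mpr hr)
  have h5 := h1.eventually (gt_mem_nhds h4)
  filter_upwards [h5, eventually_gt_atTop 0] with n hn hn0
  have h6 : ((‖A ^ n‖₊ : ENNReal)) ≤ (ENNReal.ofReal r) ^ n := by
    have h7 : ((‖A ^ n‖₊ : ENNReal) ^ (1 / (n : ℝ))) ^ (n : ℝ) ≤ (ENNReal.ofReal r) ^ (n : ℝ) :=
      ENNReal.rpow_le_rpow hn.le (by positivity)
    rw [← ENNReal.rpow_mul, one_div, inv_mul_cancel₀ (by positivity), ENNReal.rpow_one,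
      ENNReal.rpow_natCast] at h7
    exact h7
  rw [← ENNReal.ofReal_pow (by linarith)] at h6
  have h8 : ENNReal.ofReal ‖A ^ n‖ ≤ ENNReal.ofReal (r ^ n) := by
    rw [ENNReal.ofReal_eq_coe_nnreal (norm_nonneg (A ^ n))]
    exact h6
  exact (ENNReal.ofReal_le_ofReal_iff (pow_nonneg (by linarith) n)).mp h8

end norm

/-- lower bound: `θ^k ≤ S_k` for an eigenvalue `θ`. -/
lemma H_S_lower {d : ℕ} (M : Matrix (Fin d) (Fin d) ℤ) (h0 : ∀ i j, 0 ≤ M i j) (θ : ℝ)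
    (hroot : (M.map (Int.cast : ℤ → ℂ)).charpoly.IsRoot (θ : ℂ)) (hθ : 0 ≤ θ) (k : ℕ) :
    θ ^ k ≤ ((H_S M k : ℤ) : ℝ) := by
  set A : Matrix (Fin d) (Fin d) ℂ := M.map (Int.cast : ℤ → ℂ) with hA
  have hspec : (θ : ℂ) ∈ spectrum ℂ A := Matrix.mem_spectrum_iff_isRoot_charpoly.mpr hroot
  have hev : Module.End.HasEigenvalue (Matrix.toLin' A) (θ : ℂ) := by
    rw [Module.End.hasEigenvalue_iff_mem_spectrum, Matrix.spectrum_toLin']
    exact hspec
  obtain ⟨v, hv⟩ := hev.exists_hasEigenvector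
  have hv0 : v ≠ 0 := hv.2
  have hpow : ∀ n : ℕ, (A ^ n).mulVec v = (θ : ℂ) ^ n • v := by
    intro n
    have h1 := hv.pow_apply n
    rw [← Matrix.toLin'_pow, Matrix.toLin'_apply] at h1
    exact h1
  have hmap : A ^ k = (M ^ k).map (Int.cast : ℤ → ℂ) := by
    have := Matrix.map_pow M (Int.castRingHom ℂ) k
    simpa [hA] using this.symm
  -- maximal coordinate
  have hne : Nonempty (Fin d) := by
    by_contra hne
    rw [not_nonempty_iff] at hne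
    exact hv0 (Subsingleton.elim _ _)
  obtain ⟨b, -, hb⟩ := Finset.exists_max_image Finset.univ (fun b => ‖v b‖)
    Finset.univ_nonempty
  have hvb : 0 < ‖v b‖ := by
    by_contra hneg
    apply hv0
    funext c
    have h1 := hb c (Finset.mem_univ c)
    have h2 := norm_nonneg (v c)
    have h3 : ‖v c‖ = 0 := by linarith
    simpa using h3
  have h1 := congrFun (hpow k) b
  rw [hmap] at h1
  have h2 : ‖((M ^ k).map (Int.cast : ℤ → ℂ)).mulVec v b‖ ≤ ((H_S M k : ℤ) : ℝ) * ‖v b‖ := by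
    unfold Matrix.mulVec dotProduct
    calc ‖∑ a, ((M ^ k).map (Int.cast : ℤ → ℂ)) b a * v a‖
        ≤ ∑ a, ‖((M ^ k).map (Int.cast : ℤ → ℂ)) b a * v a‖ := norm_sum_le _ _
      _ ≤ ∑ a, (((M ^ k) b a : ℤ) : ℝ) * ‖v b‖ := by
          refine Finset.sum_le_sum fun a _ => ?_
          rw [norm_mul]
          have h3 : ‖((M ^ k).map (Int.cast : ℤ → ℂ)) b a‖ = (((M ^ k) b a : ℤ) : ℝ) := by
            simp only [Matrix.map_apply]
            rw [Complex.norm_intCast, abs_of_nonneg]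
            exact_mod_cast H_pow_nonneg M h0 k b a
          rw [h3]
          refine mul_le_mul_of_nonneg_left (hb a (Finset.mem_univ a)) ?_
          exact_mod_cast H_pow_nonneg M h0 k b a
      _ = (∑ a, (((M ^ k) b a : ℤ) : ℝ)) * ‖v b‖ := by rw [Finset.sum_mul]
      _ ≤ ((H_S M k : ℤ) : ℝ) * ‖v b‖ := by
          refine mul_le_mul_of_nonneg_right ?_ hvb.le
          rw [H_S_rows]
          push_cast
          exact Finset.single_le_sum (f := fun c => ∑ a, (((M ^ k) c a : ℤ) : ℝ))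
            (fun c _ => Finset.sum_nonneg fun a _ => by exact_mod_cast H_pow_nonneg M h0 k c a)
            (Finset.mem_univ b)
  rw [h1] at h2
  have h3 : ‖((θ : ℂ) ^ k • v) b‖ = θ ^ k * ‖v b‖ := by
    rw [Pi.smul_apply, smul_eq_mul, norm_mul, norm_pow, Complex.norm_real,
      Real.norm_of_nonneg hθ]
  rw [h3] at h2
  exact le_of_mul_le_mul_right h2 hvb

/-- upper bound -/
lemma H_S_upper {d : ℕ} (M : Matrix (Fin d) (Fin d) ℤ) (h0 : ∀ i j, 0 ≤ M i j) (k₀ : ℕ)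
    (hk : ∀ i j, 0 < (M ^ k₀) i j) (hS : 1 ≤ H_S M k₀) (θ : ℝ) (hθ : 0 ≤ θ)
    (h : ∀ z : ℂ, (M.map (Int.cast : ℤ → ℂ)).charpoly.IsRoot z → ‖z‖ ≤ θ) (k : ℕ) (hk1 : 1 ≤ k) :
    ((H_S M k : ℤ) : ℝ) ≤ ((H_S M k₀ : ℤ) : ℝ) * θ ^ k := by
  by_contra hcon
  push Not at hcon
  set B : ℝ := ((H_S M k₀ : ℤ) : ℝ) with hB
  set s : ℝ := ((H_S M k : ℤ) : ℝ) with hs
  have hB1 : 1 ≤ B := by rw [hB]; exact_mod_cast hS
  -- choose r > θ with B * r ^ k < s
  have hcont : Filter.Tendsto (fun r : ℝ => B * r ^ k) (nhdsWithin θ (Set.Ioi θ))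
      (nhds (B * θ ^ k)) := by
    have : Continuous (fun r : ℝ => B * r ^ k) := by fun_prop
    exact (this.tendsto θ).mono_left nhdsWithin_le_nhds
  have hev := hcont.eventually (gt_mem_nhds hcon)
  obtain ⟨r, hr1, hr2⟩ := (hev.and self_mem_nhdsWithin).exists
  have hr2 : θ < r := hr2
  have hr0 : 0 < r := lt_of_le_of_lt hθ hr2
  have hG := H_gelfand (M.map (Int.cast : ℤ → ℂ)) θ r hr2 hθ h
  obtain ⟨N, hN⟩ := Filter.eventually_atTop.mp hG
  -- s^(n+1) ≤ B^n * S((n+1)k) ≤ B^n * d * r^((n+1)k)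
  have hmain : ∀ n : ℕ, N ≤ n → (s / (B * r ^ k)) ^ (n + 1) ≤ d := by
    intro n hn
    have h1 : s ^ (n + 1) ≤ B ^ n * ((H_S M ((n + 1) * k) : ℤ) : ℝ) := by
      rw [hs, hB]
      exact_mod_cast H_S_mul M h0 k₀ hk k n
    have h2 := H_S_le_norm M h0 ((n + 1) * k)
    have h3 := hN ((n + 1) * k) (by nlinarith)
    have h4 : ((H_S M ((n + 1) * k) : ℤ) : ℝ) ≤ d * r ^ ((n + 1) * k) :=
      h2.trans (mul_le_mul_of_nonneg_left h3 (Nat.cast_nonneg d))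
    have h5 : s ^ (n + 1) ≤ B ^ (n + 1) * (d * r ^ ((n + 1) * k)) := by
      refine h1.trans ?_
      have h6 : B ^ n ≤ B ^ (n + 1) := pow_le_pow_right₀ hB1 (Nat.le_succ n)
      have h7 : 0 ≤ (d : ℝ) * r ^ ((n + 1) * k) := by positivity
      calc B ^ n * ((H_S M ((n + 1) * k) : ℤ) : ℝ) ≤ B ^ n * (d * r ^ ((n + 1) * k)) :=
            mul_le_mul_of_nonneg_left h4 (by positivity)
        _ ≤ B ^ (n + 1) * (d * r ^ ((n + 1) * k)) := mul_le_mul_of_nonneg_right h6 h7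
    rw [div_pow, div_le_iff₀ (by positivity)]
    calc s ^ (n + 1) ≤ B ^ (n + 1) * (d * r ^ ((n + 1) * k)) := h5
      _ = d * (B * r ^ k) ^ (n + 1) := by rw [mul_pow, ← pow_mul, mul_comm k (n + 1)]; ring
  have hq : 1 < s / (B * r ^ k) := by rw [one_lt_div (by positivity)]; exact hr1
  obtain ⟨m, hm⟩ := (tendsto_pow_atTop_atTop_of_one_lt hq).eventually_gt_atTop (d : ℝ) |>.and
    (Filter.eventually_ge_atTop (N + 1)) |>.exists
  have h9 := hmain (m - 1) (by omega)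
  rw [Nat.sub_add_cancel (by omega)] at h9
  linarith [hm.1]

theorem H : H_stmt := by
  intro d M θ h0 h1 ⟨k₀, hk⟩ hroot hall
  have hθ : 0 ≤ θ := (norm_nonneg _).trans (hall _ hroot)
  have hd : 0 < d := by
    rcases Nat.eq_zero_or_pos d with hd | hd
    · subst hd
      exfalso
      simp at hroot
    · exact hd
  have hS1 : ∀ k, 1 ≤ H_S M k := by
    intro k
    unfold H_S
    have h2 : ell M k ⟨0, hd⟩ ≤ ∑ a, ell M k a :=
      Finset.single_le_sum (f := fun a => ell M k a) (fun a _ => H_ell_nonneg M h0 k a)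
        (Finset.mem_univ _)
    exact (H_ell_pos M h0 h1 k ⟨0, hd⟩).trans h2
  have hup := H_S_upper M h0 k₀ hk (hS1 k₀) θ hθ hall
  have hlow := H_S_lower M h0 θ hroot hθ
  set B : ℝ := ((H_S M k₀ : ℤ) : ℝ) with hB
  have hB1 : 1 ≤ B := by rw [hB]; exact_mod_cast hS1 k₀
  have hθ1 : 1 ≤ θ := by
    by_contra hlt
    push Not at hlt
    have ht := tendsto_pow_atTop_nhds_zero_of_lt_one hθ hlt
    have hev := ht.eventually (gt_mem_nhds (show (0 : ℝ) < 1 / B by positivity))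
    obtain ⟨k, hk2, hk3⟩ := (hev.and (Filter.eventually_ge_atTop 1)).exists
    have h3 := hup k hk3
    have h4 : (1 : ℝ) ≤ ((H_S M k : ℤ) : ℝ) := by exact_mod_cast hS1 k
    have h5 : B * θ ^ k < 1 := by
      rw [lt_div_iff₀ (by linarith)] at hk2
      linarith
    linarith
  refine ⟨hθ1, (θ ^ k₀)⁻¹, by positivity, B + (H_S M 0 : ℤ), ?_⟩
  intro k a
  constructor
  · rcases lt_or_ge k k₀ with hlt | hge
    · have h2 : (1 : ℝ) ≤ ((ell M k a : ℤ) : ℝ) := by exact_mod_cast H_ell_pos M h0 h1 k a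
      have h3 : θ ^ k ≤ θ ^ k₀ := pow_le_pow_right₀ hθ1 hlt.le
      have h4 : (θ ^ k₀)⁻¹ * θ ^ k ≤ 1 := by
        rw [inv_mul_le_iff₀ (by positivity)]
        linarith
      linarith
    · obtain ⟨j, rfl⟩ := Nat.exists_eq_add_of_le' hge
      have h2 : ((H_S M j : ℤ) : ℝ) ≤ ((ell M (j + k₀) a : ℤ) : ℝ) := by
        exact_mod_cast H_ell_ge M h0 k₀ hk j a
      have h3 := hlow j
      have h4 : (θ ^ k₀)⁻¹ * θ ^ (j + k₀) = θ ^ j := by
        rw [pow_add]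
        field_simp
      rw [h4]
      linarith
  · have h2 : ((ell M k a : ℤ) : ℝ) ≤ ((H_S M k : ℤ) : ℝ) := by
      have : ell M k a ≤ H_S M k :=
        Finset.single_le_sum (f := fun a => ell M k a) (fun a _ => H_ell_nonneg M h0 k a)
          (Finset.mem_univ _)
      exact_mod_cast this
    have h3 : (0 : ℝ) ≤ ((H_S M 0 : ℤ) : ℝ) := by exact_mod_cast H_S_nonneg M h0 0
    rcases Nat.eq_zero_or_pos k with hk0 | hk0
    · subst hk0
      simp only [pow_zero, mul_one]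
      linarith
    · have h4 := hup k hk0
      have h5 : (0 : ℝ) ≤ ((H_S M 0 : ℤ) : ℝ) * θ ^ k := by positivity
      calc ((ell M k a : ℤ) : ℝ) ≤ B * θ ^ k := h2.trans h4
        _ ≤ (B + (H_S M 0 : ℤ)) * θ ^ k := by rw [add_mul]; linarith

end Pool.Agent.Helper97.Sub
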